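import Pool.Agent.W711.HT.Geo

/-!
# Local formulas at a hinge (project HT, part HLOC)
-/

set_option autoImplicit false

namespace Pool.Agent.W612.HT

open Pool.Agent.W711.HT
open scoped Real

lemma cos_sub_one_le (z : ℂ) (hz : ‖z‖ ≤ 1) : ‖Complex.cos z - 1‖ ≤ ‖z‖ ^ 2 := by
  have h1 : ‖Complex.exp (z * Complex.I) - 1 - z * Complex.I‖ ≤ ‖z * Complex.I‖ ^ 2 :=
    Complex.norm_exp_sub_one_sub_id_le (by simpa using hz)
  have h2 : ‖Complex.exp (-z * Complex.I) - 1 - -z * Complex.I‖ ≤ ‖-z * Complex.I‖ ^ 2 :=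
    Complex.norm_exp_sub_one_sub_id_le (by simpa using hz)
  have e : Complex.cos z - 1 = ((Complex.exp (z * Complex.I) - 1 - z * Complex.I) +
      (Complex.exp (-z * Complex.I) - 1 - -z * Complex.I)) / 2 := by
    rw [Complex.cos]; ring
  rw [e, norm_div]
  simp only [norm_mul, Complex.norm_I, mul_one, norm_neg] at h1 h2
  have h3 := norm_add_le (Complex.exp (z * Complex.I) - 1 - z * Complex.I)
    (Complex.exp (-z * Complex.I) - 1 - -z * Complex.I)
  rw [Complex.norm_two, div_le_iff₀ (by norm_num)]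
  linarith

lemma sin_sub_id_le (z : ℂ) (hz : ‖z‖ ≤ 1) : ‖Complex.sin z - z‖ ≤ ‖z‖ ^ 2 := by
  have h1 : ‖Complex.exp (z * Complex.I) - 1 - z * Complex.I‖ ≤ ‖z * Complex.I‖ ^ 2 :=
    Complex.norm_exp_sub_one_sub_id_le (by simpa using hz)
  have h2 : ‖Complex.exp (-z * Complex.I) - 1 - -z * Complex.I‖ ≤ ‖-z * Complex.I‖ ^ 2 :=
    Complex.norm_exp_sub_one_sub_id_le (by simpa using hz)
  have e : Complex.sin z - z = ((Complex.exp (-z * Complex.I) - 1 - -z * Complex.I) -
      (Complex.exp (z * Complex.I) - 1 - z * Complex.I)) * Complex.I / 2 := by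
    rw [Complex.sin]
    have hI : Complex.I * Complex.I = -1 := Complex.I_mul_I
    linear_combination (-z) * hI
  rw [e, norm_div, norm_mul, Complex.norm_I, mul_one]
  simp only [norm_mul, Complex.norm_I, mul_one, norm_neg] at h1 h2
  have h3 := norm_sub_le (Complex.exp (-z * Complex.I) - 1 - -z * Complex.I)
    (Complex.exp (z * Complex.I) - 1 - z * Complex.I)
  rw [Complex.norm_two, div_le_iff₀ (by norm_num)]
  linarith

/-- basic estimates -/
lemma basic (ψ ψ' u : ℂ) (h : HP ψ ψ' u) : ‖Complex.cos u‖ ≤ 6 / 1000 ∧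
    ‖Complex.sin u - 1‖ ≤ 1 / 1000 := by
  have h1 := cos_sub_one_le ψ (h.sm.trans (by norm_num))
  have h2 := cos_sub_one_le ψ' (h.sm'.trans (by norm_num))
  have h1' : ‖Complex.cos ψ - 1‖ ≤ 1 / 100 := by
    have := h.sm
    have h0 := norm_nonneg ψ
    nlinarith
  have h2' : ‖Complex.cos ψ' - 1‖ ≤ 1 / 100 := by
    have := h.sm'
    have h0 := norm_nonneg ψ'
    nlinarith
  set α := Complex.cos ψ - 1 with hα
  set β := Complex.cos ψ' - 1 with hβ
  have hden : 398 / 100 ≤ ‖2 + Complex.cos ψ + Complex.cos ψ'‖ := by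
    have e : (4 : ℂ) = (2 + Complex.cos ψ + Complex.cos ψ') - (α + β) := by
      rw [hα, hβ]; ring
    have h3 : ‖(4 : ℂ)‖ ≤ ‖2 + Complex.cos ψ + Complex.cos ψ'‖ + ‖α + β‖ := by
      conv_lhs => rw [e]
      exact norm_sub_le _ _
    have h4 := norm_add_le α β
    have h5 : ‖(4 : ℂ)‖ = 4 := by simp
    linarith
  have hnum : ‖1 - Complex.cos ψ * Complex.cos ψ'‖ ≤ 201 / 10000 := by
    have e : 1 - Complex.cos ψ * Complex.cos ψ' = -(α + β + α * β) := by
      rw [hα, hβ]; ring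
    rw [e, norm_neg]
    have h3 := norm_add_le (α + β) (α * β)
    have h4 := norm_add_le α β
    rw [norm_mul] at h3
    have h5 : ‖α‖ * ‖β‖ ≤ 1 / 100 * (1 / 100) :=
      mul_le_mul h1' h2' (norm_nonneg _) (by norm_num)
    linarith
  have hcos : ‖Complex.cos u‖ ≤ 51 / 10000 := by
    rw [h.eq, norm_div, div_le_iff₀ (by linarith)]
    nlinarith
  refine ⟨by linarith, ?_⟩
  set v := u - π / 2 with hv
  have hu : u = v + π / 2 := by rw [hv]; ring
  have hvn : ‖v‖ ≤ 394 / 1000 := by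
    have := h.un
    have hpi := Real.pi_lt_d2
    linarith
  have hs := sin_sub_id_le v (hvn.trans (by norm_num))
  have hcu : Complex.cos u = - Complex.sin v := by
    rw [hu, Complex.cos_add_pi_div_two]
  have hsu : Complex.sin u = Complex.cos v := by
    rw [hu, Complex.sin_add_pi_div_two]
  rw [hcu, norm_neg] at hcos
  have h3 : ‖v‖ ≤ ‖Complex.sin v‖ + ‖Complex.sin v - v‖ := by
    have : v = Complex.sin v - (Complex.sin v - v) := by ring
    conv_lhs => rw [this]
    exact norm_sub_le _ _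
  have h4 : ‖v‖ ≤ 1 / 100 := by
    have h0 := norm_nonneg v
    nlinarith
  rw [hsu]
  have h5 := cos_sub_one_le v (hvn.trans (by norm_num))
  have h0 := norm_nonneg v
  nlinarith

lemma cos_small (s : ℂ) (hs : ‖s‖ ≤ 1 / 10) : ‖Complex.cos s - 1‖ ≤ 1 / 100 := by
  have h1 := cos_sub_one_le s (hs.trans (by norm_num))
  have h0 := norm_nonneg s
  nlinarith

lemma sum_near (u s : ℂ) (hu : ‖Complex.cos u‖ ≤ 6 / 1000) (hs : ‖s‖ ≤ 1 / 10) :
    ‖Complex.cos u + Complex.cos s - 1‖ ≤ 16 / 1000 := by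
  have h1 := cos_small s hs
  have h2 : Complex.cos u + Complex.cos s - 1 = Complex.cos u + (Complex.cos s - 1) := by ring
  rw [h2]
  have := norm_add_le (Complex.cos u) (Complex.cos s - 1)
  linarith

lemma sum_ge (u s : ℂ) (hu : ‖Complex.cos u‖ ≤ 6 / 1000) (hs : ‖s‖ ≤ 1 / 10) :
    984 / 1000 ≤ ‖Complex.cos u + Complex.cos s‖ := by
  have h1 := sum_near u s hu hs
  have h2 : (1 : ℂ) = (Complex.cos u + Complex.cos s) - (Complex.cos u + Complex.cos s - 1) := by
    ring
  have h3 : ‖(1 : ℂ)‖ ≤ ‖Complex.cos u + Complex.cos s‖ + ‖Complex.cos u + Complex.cos s - 1‖ := by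
    conv_lhs => rw [h2]
    exact norm_sub_le _ _
  rw [norm_one] at h3
  linarith

lemma prod_cos (u s : ℂ) : Complex.cos ((u - s) / 2) * Complex.cos ((u + s) / 2) =
    (Complex.cos u + Complex.cos s) / 2 := by
  have e1 : u = (u + s) / 2 + (u - s) / 2 := by ring
  have e2 : s = (u + s) / 2 - (u - s) / 2 := by ring
  have h1 : Complex.cos u = Complex.cos ((u + s) / 2 + (u - s) / 2) := by rw [← e1]
  have h2 : Complex.cos s = Complex.cos ((u + s) / 2 - (u - s) / 2) := by rw [← e2]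
  rw [h1, h2, Complex.cos_add, Complex.cos_sub]
  ring

lemma cos_ne (u s : ℂ) (hu : ‖Complex.cos u‖ ≤ 6 / 1000) (hs : ‖s‖ ≤ 1 / 10) :
    Complex.cos ((u - s) / 2) ≠ 0 ∧ Complex.cos ((u + s) / 2) ≠ 0 := by
  have h1 := sum_ge u s hu hs
  have h2 : Complex.cos u + Complex.cos s ≠ 0 := by
    intro h
    rw [h, norm_zero] at h1
    norm_num at h1
  have h3 := prod_cos u s
  constructor
  · intro h
    rw [h, zero_mul] at h3
    apply h2
    linear_combination (-2) * h3
  · intro h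
    rw [h, mul_zero] at h3
    apply h2
    linear_combination (-2) * h3

lemma ratio_slit (u s : ℂ) (hu : ‖Complex.cos u‖ ≤ 6 / 1000) (hsu : ‖Complex.sin u - 1‖ ≤ 1 / 1000)
    (hs : ‖s‖ ≤ 1 / 10) :
    Complex.cos ((u - s) / 2) / Complex.cos ((u + s) / 2) ∈ Complex.slitPlane := by
  obtain ⟨hA, hB⟩ := cos_ne u s hu hs
  have hge := sum_ge u s hu hs
  have hd : Complex.cos u + Complex.cos s ≠ 0 := by
    intro h
    rw [h, norm_zero] at hge
    norm_num at hge
  have hsq : Complex.cos ((u - s) / 2) ^ 2 =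
      (1 + Complex.cos u * Complex.cos s + Complex.sin u * Complex.sin s) / 2 := by
    have h1 := Complex.cos_sq ((u - s) / 2)
    rw [h1]
    have h2 : 2 * ((u - s) / 2) = u - s := by ring
    rw [h2, Complex.cos_sub]
    ring
  have hq : Complex.cos ((u - s) / 2) / Complex.cos ((u + s) / 2) =
      (1 + Complex.cos u * Complex.cos s + Complex.sin u * Complex.sin s) /
        (Complex.cos u + Complex.cos s) := by
    rw [div_eq_div_iff hB hd]
    have h3 := prod_cos u s
    linear_combination (-2 * Complex.cos ((u - s) / 2)) * h3 +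
      (2 * Complex.cos ((u + s) / 2)) * hsq
  have hn : ‖(1 + Complex.cos u * Complex.cos s + Complex.sin u * Complex.sin s) /
        (Complex.cos u + Complex.cos s) - 1‖ < 1 := by
    rw [div_sub_one hd, norm_div, div_lt_one (by linarith)]
    have hc := cos_small s hs
    have hsn := sin_sub_id_le s (hs.trans (by norm_num))
    have e : 1 + Complex.cos u * Complex.cos s + Complex.sin u * Complex.sin s -
        (Complex.cos u + Complex.cos s) = Complex.cos u * (Complex.cos s - 1) -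
          (Complex.cos s - 1) + (Complex.sin u - 1) * Complex.sin s + Complex.sin s := by ring
    have h0 := norm_nonneg s
    have hsn2 : ‖Complex.sin s‖ ≤ 11 / 100 := by
      have h4 : Complex.sin s = (Complex.sin s - s) + s := by ring
      rw [h4]
      have := norm_add_le (Complex.sin s - s) s
      nlinarith
    rw [e]
    have g1 : ‖Complex.cos u * (Complex.cos s - 1)‖ ≤ 6 / 1000 * (1 / 100) := by
      rw [norm_mul]
      exact mul_le_mul hu hc (norm_nonneg _) (by norm_num)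
    have g2 : ‖(Complex.sin u - 1) * Complex.sin s‖ ≤ 1 / 1000 * (11 / 100) := by
      rw [norm_mul]
      exact mul_le_mul hsu hsn2 (norm_nonneg _) (by norm_num)
    have g3 := norm_add_le (Complex.cos u * (Complex.cos s - 1) -
          (Complex.cos s - 1) + (Complex.sin u - 1) * Complex.sin s) (Complex.sin s)
    have g4 := norm_add_le (Complex.cos u * (Complex.cos s - 1) -
          (Complex.cos s - 1)) ((Complex.sin u - 1) * Complex.sin s)
    have g5 := norm_sub_le (Complex.cos u * (Complex.cos s - 1)) (Complex.cos s - 1)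
    linarith
  rw [hq]
  rw [Complex.mem_slitPlane_iff]
  left
  set z := (1 + Complex.cos u * Complex.cos s + Complex.sin u * Complex.sin s) /
        (Complex.cos u + Complex.cos s) with hz
  have h5 := (abs_le.mp (Complex.abs_re_le_norm (z - 1))).1
  rw [Complex.sub_re, Complex.one_re] at h5
  linarith

lemma Lg_deriv (u s : ℂ) (hu : ‖Complex.cos u‖ ≤ 6 / 1000)
    (hsu : ‖Complex.sin u - 1‖ ≤ 1 / 1000) (hs : ‖s‖ ≤ 1 / 10) :
    HasDerivAt (fun z => Lg u z) (Complex.sin u / (Complex.cos u + Complex.cos s)) s := by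
  obtain ⟨hA, hB⟩ := cos_ne u s hu hs
  have hge := sum_ge u s hu hs
  have hd : Complex.cos u + Complex.cos s ≠ 0 := by
    intro h
    rw [h, norm_zero] at hge
    norm_num at hge
  have l1 : HasDerivAt (fun z : ℂ => (u - z) / 2) (-1 / 2) s := by
    have := ((hasDerivAt_id s).const_sub u).div_const 2
    simpa using this
  have l2 : HasDerivAt (fun z : ℂ => (u + z) / 2) (1 / 2) s := by
    have := ((hasDerivAt_id s).const_add u).div_const 2
    simpa using this
  have n1 := l1.ccos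
  have n2 := l2.ccos
  have n3 := (n1.div n2 hB).clog (ratio_slit u s hu hsu hs)
  unfold Lg
  refine n3.congr_deriv ?_
  have h3 := prod_cos u s
  have h4 : Complex.sin u = Complex.sin ((u + s) / 2) * Complex.cos ((u - s) / 2) +
      Complex.cos ((u + s) / 2) * Complex.sin ((u - s) / 2) := by
    rw [← Complex.sin_add]
    congr 1
    ring
  simp only [Pi.div_apply]
  have h5 : Complex.cos u + Complex.cos s =
      2 * (Complex.cos ((u - s) / 2) * Complex.cos ((u + s) / 2)) := by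
    linear_combination (-2) * h3
  rw [h5, h4]
  field_simp
  ring

lemma Lg_bound (ψ ψ' u : ℂ) (h : HP ψ ψ' u) : ‖Lg u ψ - ψ‖ ≤ ‖ψ‖ / 10 := by
  obtain ⟨hu, hsu⟩ := basic ψ ψ' u h
  have h0 : Lg u 0 = 0 := by
    unfold Lg
    have := (cos_ne u 0 hu (by simp)).2
    rw [sub_zero, add_zero] at *
    rw [div_self this, Complex.log_one]
  have key : ‖(Lg u ψ - ψ) - (Lg u 0 - 0)‖ ≤ 1 / 10 * ‖ψ - 0‖ := by
    apply (convex_closedBall (0 : ℂ) (1 / 10)).norm_image_sub_le_of_norm_hasDerivWithin_le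
      (f := fun s => Lg u s - s) (f' := fun s => Complex.sin u / (Complex.cos u + Complex.cos s) - 1)
    · intro s hs
      have hs' : ‖s‖ ≤ 1 / 10 := by simpa using hs
      exact ((Lg_deriv u s hu hsu hs').sub (hasDerivAt_id s)).hasDerivWithinAt
    · intro s hs
      have hs' : ‖s‖ ≤ 1 / 10 := by simpa using hs
      have hge := sum_ge u s hu hs'
      have hd : Complex.cos u + Complex.cos s ≠ 0 := by
        intro h
        rw [h, norm_zero] at hge
        norm_num at hge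
      rw [div_sub_one hd, norm_div, div_le_iff₀ (by linarith)]
      have e : Complex.sin u - (Complex.cos u + Complex.cos s) = (Complex.sin u - 1) -
        (Complex.cos u + Complex.cos s - 1) := by ring
      rw [e]
      have g1 := norm_sub_le (Complex.sin u - 1) (Complex.cos u + Complex.cos s - 1)
      have g2 := sum_near u s hu hs'
      linarith
    · simp
    · simpa using h.sm
  rw [h0, sub_zero, sub_zero, sub_zero] at key
  linarith

lemma tt_bound (ψ ψ' u : ℂ) (h : HP ψ ψ' u) : ‖tt ψ u + Complex.I * ψ / 2‖ ≤ ‖ψ‖ / 20 := by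
  have h1 := Lg_bound ψ ψ' u h
  have e : tt ψ u + Complex.I * ψ / 2 = (Lg u ψ - ψ) / (2 * Complex.I) := by
    unfold tt
    have hI : Complex.I ≠ 0 := Complex.I_ne_zero
    field_simp
    rw [Complex.I_sq]
    ring
  rw [e, norm_div, norm_mul, Complex.norm_I, Complex.norm_two, mul_one]
  linarith

lemma exp_tt (ψ ψ' u : ℂ) (h : HP ψ ψ' u) : Complex.exp (2 * Complex.I * tt ψ u) =
    Complex.cos ((u - ψ) / 2) / Complex.cos ((u + ψ) / 2) := by
  obtain ⟨hu, hsu⟩ := basic ψ ψ' u h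
  obtain ⟨hA, hB⟩ := cos_ne u ψ hu h.sm
  have e : 2 * Complex.I * tt ψ u = Lg u ψ := by
    unfold tt
    have hI : Complex.I ≠ 0 := Complex.I_ne_zero
    field_simp
  rw [e]
  unfold Lg
  rw [Complex.exp_log (div_ne_zero hA hB)]

lemma exp_form (ψ ψ' u : ℂ) (h : HP ψ ψ' u) : Complex.exp (2 * Complex.I * tt ψ u) =
    (Complex.exp (Complex.I * u) + Complex.exp (Complex.I * ψ)) /
      (1 + Complex.exp (Complex.I * u) * Complex.exp (Complex.I * ψ)) := by
  obtain ⟨hu, hsu⟩ := basic ψ ψ' u h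
  obtain ⟨hA, hB⟩ := cos_ne u ψ hu h.sm
  rw [exp_tt ψ ψ' u h]
  set x := Complex.exp (Complex.I * u / 2) with hx
  set g := Complex.exp (Complex.I * ψ / 2) with hg
  have hx0 : x ≠ 0 := Complex.exp_ne_zero _
  have hg0 : g ≠ 0 := Complex.exp_ne_zero _
  have ex : Complex.exp (Complex.I * u) = x ^ 2 := by
    rw [hx, ← Complex.exp_nat_mul]
    congr 1
    push_cast
    ring
  have eg : Complex.exp (Complex.I * ψ) = g ^ 2 := by
    rw [hg, ← Complex.exp_nat_mul]
    congr 1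
    push_cast
    ring
  have eA : Complex.cos ((u - ψ) / 2) = (x ^ 2 + g ^ 2) / (2 * x * g) := by
    rw [Complex.cos]
    have e1 : Complex.exp ((u - ψ) / 2 * Complex.I) = x / g := by
      rw [hx, hg, ← Complex.exp_sub]
      congr 1
      ring
    have e2 : Complex.exp (-((u - ψ) / 2) * Complex.I) = g / x := by
      rw [hx, hg, ← Complex.exp_sub]
      congr 1
      ring
    rw [e1, e2]
    field_simp
  have eB : Complex.cos ((u + ψ) / 2) = (1 + x ^ 2 * g ^ 2) / (2 * x * g) := by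
    rw [Complex.cos]
    have e1 : Complex.exp ((u + ψ) / 2 * Complex.I) = x * g := by
      rw [hx, hg, ← Complex.exp_add]
      congr 1
      ring
    have e2 : Complex.exp (-((u + ψ) / 2) * Complex.I) = 1 / (x * g) := by
      rw [one_div, hx, hg, ← Complex.exp_add, ← Complex.exp_neg]
      congr 1
      ring
    rw [e1, e2]
    field_simp
    ring
  rw [ex, eg, eA, eB]
  have hB' : 1 + x ^ 2 * g ^ 2 ≠ 0 := by
    intro h0
    rw [eB, h0, zero_div] at hB
    exact hB rfl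
  field_simp

/-- `sin` and `cos` at the half angles -/
lemma half_cos (ψ : ℂ) : Complex.cos ψ = 2 * Complex.cos (ψ / 2) ^ 2 - 1 := by
  have := Complex.cos_sq (ψ / 2)
  rw [this]
  have h2 : 2 * (ψ / 2) = ψ := by ring
  rw [h2]
  ring

lemma half_small (ψ : ℂ) (h : ‖ψ‖ ≤ 1 / 10) : ‖Complex.cos (ψ / 2) - 1‖ ≤ 1 / 400 := by
  have h1 : ‖ψ / 2‖ ≤ 1 / 20 := by
    rw [norm_div, Complex.norm_two]
    linarith
  have h2 := cos_sub_one_le (ψ / 2) (h1.trans (by norm_num))
  have h0 := norm_nonneg (ψ / 2)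
  nlinarith

lemma half_ne (ψ : ℂ) (h : ‖ψ‖ ≤ 1 / 10) : Complex.cos (ψ / 2) ≠ 0 := by
  have h1 := half_small ψ h
  intro h0
  rw [h0, zero_sub, norm_neg, norm_one] at h1
  norm_num at h1

lemma sin_sq_tt (ψ ψ' u : ℂ) (h : HP ψ ψ' u) : Complex.sin (tt ψ u) ^ 2 =
    (-Complex.I * Complex.sin (ψ / 2) * Complex.cos (ψ' / 2) / Complex.cos (ψ / 2)) ^ 2 := by
  obtain ⟨hu, hsu⟩ := basic ψ ψ' u h
  obtain ⟨hA, hB⟩ := cos_ne u ψ hu h.sm
  have hE := exp_tt ψ ψ' u h
  have hk := half_ne ψ h.sm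
  have hk' := half_ne ψ' h.sm'
  set A := Complex.cos ((u - ψ) / 2) with hAdef
  set Bc := Complex.cos ((u + ψ) / 2) with hBdef
  have hprod : A * Bc = (Complex.cos u + Complex.cos ψ) / 2 := prod_cos u ψ
  have hdiff : A - Bc = 2 * (Complex.sin (u / 2) * Complex.sin (ψ / 2)) := by
    have e1 : (u - ψ) / 2 = u / 2 - ψ / 2 := by ring
    have e2 : (u + ψ) / 2 = u / 2 + ψ / 2 := by ring
    rw [hAdef, hBdef, e1, e2, Complex.cos_sub, Complex.cos_add]
    ring
  set w := Complex.exp (Complex.I * tt ψ u) with hw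
  have hw0 : w ≠ 0 := Complex.exp_ne_zero _
  have hw2 : w ^ 2 = A / Bc := by
    rw [← hE, hw, ← Complex.exp_nat_mul]
    congr 1
    push_cast
    ring
  have hsin : Complex.sin (tt ψ u) = (1 / w - w) * Complex.I / 2 := by
    rw [Complex.sin]
    have e1 : Complex.exp (-tt ψ u * Complex.I) = 1 / w := by
      rw [one_div, hw, ← Complex.exp_neg]
      congr 1
      ring
    have e2 : Complex.exp (tt ψ u * Complex.I) = w := by
      rw [hw]
      congr 1
      ring
    rw [e1, e2]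
  have hsq : Complex.sin (tt ψ u) ^ 2 = -((A - Bc) ^ 2 / (4 * (A * Bc))) := by
    have h1 : Complex.sin (tt ψ u) ^ 2 = -(1 / w ^ 2 + w ^ 2 - 2) / 4 := by
      rw [hsin]
      field_simp
      rw [Complex.I_sq]
      ring
    rw [h1, hw2]
    field_simp
    ring
  have hsu2 : Complex.sin (u / 2) ^ 2 = (1 - Complex.cos u) / 2 := by
    have h1 := half_cos u
    have h2 := Complex.sin_sq_add_cos_sq (u / 2)
    linear_combination h2 + (1 / 2) * h1
  have hc := half_cos ψ
  have hc' := half_cos ψ'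
  have hden : Complex.cos u + Complex.cos ψ ≠ 0 := by
    intro h0
    rw [h0, zero_div] at hprod
    exact mul_ne_zero hA hB hprod
  have hd2 : 2 + Complex.cos ψ + Complex.cos ψ' ≠ 0 := by
    have g1 := cos_small ψ h.sm
    have g2 := cos_small ψ' h.sm'
    intro h0
    have e : (4 : ℂ) = (2 + Complex.cos ψ + Complex.cos ψ') -
        ((Complex.cos ψ - 1) + (Complex.cos ψ' - 1)) := by ring
    have h4 : ‖(4 : ℂ)‖ ≤ 2 / 100 := by
      rw [e, h0, zero_sub, norm_neg]
      have := norm_add_le (Complex.cos ψ - 1) (Complex.cos ψ' - 1)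
      linarith
    have h5 : ‖(4 : ℂ)‖ = 4 := by simp
    linarith
  have hcu : Complex.cos u * (2 + Complex.cos ψ + Complex.cos ψ') =
      1 - Complex.cos ψ * Complex.cos ψ' := by
    rw [h.eq, div_mul_cancel₀ _ hd2]
  -- `(1 - cos u) k ^ 2 = (cos u + cos ψ) k' ^ 2`
  have hkey : (1 - Complex.cos u) * Complex.cos (ψ / 2) ^ 2 =
      (Complex.cos u + Complex.cos ψ) * Complex.cos (ψ' / 2) ^ 2 := by
    have h1 : Complex.cos (ψ / 2) ^ 2 = (1 + Complex.cos ψ) / 2 := by
      linear_combination (-1 / 2) * hc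
    have h2 : Complex.cos (ψ' / 2) ^ 2 = (1 + Complex.cos ψ') / 2 := by
      linear_combination (-1 / 2) * hc'
    rw [h1, h2]
    linear_combination (-1 / 2) * hcu
  rw [hsq, hprod, hdiff]
  have e3 : (-Complex.I * Complex.sin (ψ / 2) * Complex.cos (ψ' / 2) / Complex.cos (ψ / 2)) ^ 2 =
      -(Complex.sin (ψ / 2) ^ 2 * Complex.cos (ψ' / 2) ^ 2 / Complex.cos (ψ / 2) ^ 2) := by
    rw [div_pow, mul_pow, mul_pow, neg_sq, Complex.I_sq]
    ring
  rw [e3]
  congr 1
  rw [div_eq_div_iff (by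
    intro h0
    apply hden
    linear_combination (1 / 2) * h0) (pow_ne_zero 2 hk)]
  linear_combination (4 * Complex.sin (ψ / 2) ^ 2 * Complex.cos (ψ / 2) ^ 2) * hsu2 +
    (2 * Complex.sin (ψ / 2) ^ 2) * hkey

lemma tt_small (ψ ψ' u : ℂ) (h : HP ψ ψ' u) : ‖tt ψ u‖ ≤ 55 / 100 * ‖ψ‖ := by
  have h1 := tt_bound ψ ψ' u h
  have e : tt ψ u = (tt ψ u + Complex.I * ψ / 2) - Complex.I * ψ / 2 := by ring
  have h2 : ‖Complex.I * ψ / 2‖ = ‖ψ‖ / 2 := by
    rw [norm_div, norm_mul, Complex.norm_I, Complex.norm_two, one_mul]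
  have h3 := norm_sub_le (tt ψ u + Complex.I * ψ / 2) (Complex.I * ψ / 2)
  rw [e]
  linarith

lemma sin_tt (ψ ψ' u : ℂ) (h : HP ψ ψ' u) : Complex.sin (tt ψ u) =
    -Complex.I * Complex.sin (ψ / 2) * Complex.cos (ψ' / 2) / Complex.cos (ψ / 2) := by
  rcases sq_eq_sq_iff_eq_or_eq_neg.mp (sin_sq_tt ψ ψ' u h) with h1 | h1
  · exact h1
  exfalso
  have hk := half_ne ψ h.sm
  have hψ : 0 < ‖ψ‖ := norm_pos_iff.mpr h.ne
  have hsm := h.sm
  have ht := tt_small ψ ψ' u h
  have htb := tt_bound ψ ψ' u h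
  have ht1 : ‖tt ψ u‖ ≤ 1 := by linarith
  have hs1 := sin_sub_id_le (tt ψ u) ht1
  have hs2 : ‖Complex.sin (tt ψ u) + Complex.I * ψ / 2‖ ≤ 9 / 100 * ‖ψ‖ := by
    have e : Complex.sin (tt ψ u) + Complex.I * ψ / 2 = (Complex.sin (tt ψ u) - tt ψ u) +
      (tt ψ u + Complex.I * ψ / 2) := by ring
    rw [e]
    have h2 := norm_add_le (Complex.sin (tt ψ u) - tt ψ u) (tt ψ u + Complex.I * ψ / 2)
    have h3 : ‖tt ψ u‖ ^ 2 ≤ (55 / 100 * ‖ψ‖) ^ 2 := by
      have := norm_nonneg (tt ψ u)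
      exact pow_le_pow_left₀ this ht 2
    nlinarith
  -- the right side
  have hp2 : ‖ψ / 2‖ = ‖ψ‖ / 2 := by rw [norm_div, Complex.norm_two]
  have hs3 := sin_sub_id_le (ψ / 2) (by rw [hp2]; linarith)
  rw [hp2] at hs3
  have hs4 : ‖Complex.sin (ψ / 2) - ψ / 2‖ ≤ 25 / 1000 * ‖ψ‖ := by nlinarith
  have hs5 : ‖Complex.sin (ψ / 2)‖ ≤ 53 / 100 * ‖ψ‖ := by
    have e : Complex.sin (ψ / 2) = (Complex.sin (ψ / 2) - ψ / 2) + ψ / 2 := by ring
    have := norm_add_le (Complex.sin (ψ / 2) - ψ / 2) (ψ / 2)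
    rw [e]
    rw [hp2] at this
    linarith
  have c1 := half_small ψ h.sm
  have c2 := half_small ψ' h.sm'
  have hkn : 399 / 400 ≤ ‖Complex.cos (ψ / 2)‖ := by
    have e : (1 : ℂ) = Complex.cos (ψ / 2) - (Complex.cos (ψ / 2) - 1) := by ring
    have : ‖(1 : ℂ)‖ ≤ ‖Complex.cos (ψ / 2)‖ + ‖Complex.cos (ψ / 2) - 1‖ := by
      conv_lhs => rw [e]
      exact norm_sub_le _ _
    rw [norm_one] at this
    linarith
  have hr : ‖Complex.cos (ψ' / 2) / Complex.cos (ψ / 2) - 1‖ ≤ 1 / 100 := by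
    rw [div_sub_one hk, norm_div, div_le_iff₀ (by linarith)]
    have e : Complex.cos (ψ' / 2) - Complex.cos (ψ / 2) = (Complex.cos (ψ' / 2) - 1) -
      (Complex.cos (ψ / 2) - 1) := by ring
    rw [e]
    have := norm_sub_le (Complex.cos (ψ' / 2) - 1) (Complex.cos (ψ / 2) - 1)
    linarith
  set S0 := -Complex.I * Complex.sin (ψ / 2) * Complex.cos (ψ' / 2) / Complex.cos (ψ / 2) with hS0
  have hS : ‖S0 + Complex.I * ψ / 2‖ ≤ 4 / 100 * ‖ψ‖ := by
    have e : S0 + Complex.I * ψ / 2 = -Complex.I * ((Complex.sin (ψ / 2) - ψ / 2) +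
        Complex.sin (ψ / 2) * (Complex.cos (ψ' / 2) / Complex.cos (ψ / 2) - 1)) := by
      rw [hS0]
      field_simp
      ring
    rw [e, norm_mul, norm_neg, Complex.norm_I, one_mul]
    have h2 := norm_add_le (Complex.sin (ψ / 2) - ψ / 2)
      (Complex.sin (ψ / 2) * (Complex.cos (ψ' / 2) / Complex.cos (ψ / 2) - 1))
    have h3 : ‖Complex.sin (ψ / 2) * (Complex.cos (ψ' / 2) / Complex.cos (ψ / 2) - 1)‖ ≤
        (53 / 100 * ‖ψ‖) * (1 / 100) := by
      rw [norm_mul]
      exact mul_le_mul hs5 hr (norm_nonneg _) (by positivity)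
    linarith
  have e : Complex.I * ψ = (Complex.sin (tt ψ u) + Complex.I * ψ / 2) +
      (S0 + Complex.I * ψ / 2) := by
    rw [h1]; ring
  have h2 : ‖Complex.I * ψ‖ ≤ 13 / 100 * ‖ψ‖ := by
    rw [e]
    have := norm_add_le (Complex.sin (tt ψ u) + Complex.I * ψ / 2) (S0 + Complex.I * ψ / 2)
    linarith
  rw [norm_mul, Complex.norm_I, one_mul] at h2
  linarith

lemma hp_symm (ψ ψ' u : ℂ) (h : HP ψ ψ' u) : HP ψ' ψ u := by
  refine ⟨h.ne', h.ne, h.sm', h.sm, h.un, ?_⟩
  rw [h.eq]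
  congr 1 <;> ring

lemma cosS (ψ ψ' u : ℂ) (h : HP ψ ψ' u) :
    (Complex.cos (tt ψ u) * Complex.cos (ψ / 2)) ^ 2 =
      1 - Complex.sin (ψ / 2) ^ 2 * Complex.sin (ψ' / 2) ^ 2 ∧
    ‖Complex.cos (tt ψ u) * Complex.cos (ψ / 2) - 1‖ ≤ 1 / 10 := by
  have hk := half_ne ψ h.sm
  constructor
  · have h1 := sin_tt ψ ψ' u h
    have h2 := Complex.sin_sq_add_cos_sq (tt ψ u)
    have h3 := Complex.sin_sq_add_cos_sq (ψ / 2)
    have h4 := Complex.sin_sq_add_cos_sq (ψ' / 2)
    have h5 : Complex.sin (tt ψ u) * Complex.cos (ψ / 2) =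
        -Complex.I * Complex.sin (ψ / 2) * Complex.cos (ψ' / 2) := by
      rw [h1, div_mul_cancel₀ _ hk]
    have h6 : (Complex.sin (tt ψ u) * Complex.cos (ψ / 2)) ^ 2 =
        -(Complex.sin (ψ / 2) ^ 2 * Complex.cos (ψ' / 2) ^ 2) := by
      rw [h5, mul_pow, mul_pow, neg_sq, Complex.I_sq]
      ring
    linear_combination (Complex.cos (ψ / 2) ^ 2) * h2 - h6 + h3 +
      (Complex.sin (ψ / 2) ^ 2) * h4
  · have ht := tt_small ψ ψ' u h
    have hsm := h.sm
    have h0 := norm_nonneg (tt ψ u)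
    have h1 := cos_sub_one_le (tt ψ u) (by linarith)
    have h1' : ‖Complex.cos (tt ψ u) - 1‖ ≤ 1 / 100 := by nlinarith
    have h2 := half_small ψ h.sm
    have e : Complex.cos (tt ψ u) * Complex.cos (ψ / 2) - 1 =
        (Complex.cos (tt ψ u) - 1) * (Complex.cos (ψ / 2) - 1) + (Complex.cos (tt ψ u) - 1) +
          (Complex.cos (ψ / 2) - 1) := by ring
    rw [e]
    have g1 : ‖(Complex.cos (tt ψ u) - 1) * (Complex.cos (ψ / 2) - 1)‖ ≤ 1 / 100 * (1 / 400) := by
      rw [norm_mul]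
      exact mul_le_mul h1' h2 (norm_nonneg _) (by norm_num)
    have g2 := norm_add_le ((Complex.cos (tt ψ u) - 1) * (Complex.cos (ψ / 2) - 1) +
      (Complex.cos (tt ψ u) - 1)) (Complex.cos (ψ / 2) - 1)
    have g3 := norm_add_le ((Complex.cos (tt ψ u) - 1) * (Complex.cos (ψ / 2) - 1))
      (Complex.cos (tt ψ u) - 1)
    linarith

theorem hloc : S_HLOC := by
  intro ψ ψ' u h
  have hs := hp_symm ψ ψ' u h
  have hk := half_ne ψ h.sm
  have hk' := half_ne ψ' h.sm'
  refine ⟨exp_form ψ ψ' u h, tt_bound ψ ψ' u h, sin_tt ψ ψ' u h, ?_⟩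
  obtain ⟨a1, a2⟩ := cosS ψ ψ' u h
  obtain ⟨b1, b2⟩ := cosS ψ' ψ u hs
  have hS : Complex.cos (tt ψ u) * Complex.cos (ψ / 2) =
      Complex.cos (tt ψ' u) * Complex.cos (ψ' / 2) := by
    have h1 : (Complex.cos (tt ψ u) * Complex.cos (ψ / 2)) ^ 2 =
      (Complex.cos (tt ψ' u) * Complex.cos (ψ' / 2)) ^ 2 := by
      rw [a1, b1]; ring
    rcases sq_eq_sq_iff_eq_or_eq_neg.mp h1 with h2 | h2
    · exact h2
    exfalso
    have e : (2 : ℂ) = -((Complex.cos (tt ψ u) * Complex.cos (ψ / 2) - 1) +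
        (Complex.cos (tt ψ' u) * Complex.cos (ψ' / 2) - 1)) := by
      rw [h2]; ring
    have h3 : ‖(2 : ℂ)‖ ≤ 2 / 10 := by
      rw [e, norm_neg]
      have := norm_add_le (Complex.cos (tt ψ u) * Complex.cos (ψ / 2) - 1)
        (Complex.cos (tt ψ' u) * Complex.cos (ψ' / 2) - 1)
      linarith
    rw [Complex.norm_two] at h3
    norm_num at h3
  have s1 : Complex.sin (tt ψ u) * Complex.cos (ψ / 2) =
        -Complex.I * Complex.sin (ψ / 2) * Complex.cos (ψ' / 2) := by
    rw [sin_tt ψ ψ' u h, div_mul_cancel₀ _ hk]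
  have s2 : Complex.sin (tt ψ' u) * Complex.cos (ψ' / 2) =
        -Complex.I * Complex.sin (ψ' / 2) * Complex.cos (ψ / 2) := by
    rw [sin_tt ψ' ψ u hs, div_mul_cancel₀ _ hk']
  have h3 := Complex.sin_sq_add_cos_sq (ψ / 2)
  have h4 := Complex.sin_sq_add_cos_sq (ψ' / 2)
  have hI : Complex.I * Complex.I = -1 := Complex.I_mul_I
  set s := Complex.sin (ψ / 2)
  set k := Complex.cos (ψ / 2)
  set s' := Complex.sin (ψ' / 2)
  set k' := Complex.cos (ψ' / 2)
  set C := Complex.cos (tt ψ u)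
  set C' := Complex.cos (tt ψ' u)
  set T := Complex.sin (tt ψ u)
  set T' := Complex.sin (tt ψ' u)
  constructor
  · rw [Complex.sin_add, Complex.sin_sub]
    change (T * k + C * s) * (T' * k' - C' * s') * (k * k') = -(s * s' * (k ^ 2 + k' ^ 2))
    have e1 : (T * k + C * s) * k = s * (C * k - Complex.I * (k * k')) := by
      rw [s1]; ring
    have e2 : (T' * k' - C' * s') * k' = -(s' * (C * k + Complex.I * (k * k'))) := by
      rw [s2, hS]; ring
    have e3 : (T * k + C * s) * (T' * k' - C' * s') * (k * k') =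
        ((T * k + C * s) * k) * ((T' * k' - C' * s') * k') := by ring
    rw [e3, e1, e2]
    linear_combination (-(s * s')) * a1 + (s * s' * (k * k') ^ 2) * hI +
      (s * s' * s' ^ 2) * h3 + (s * s' * (1 - k ^ 2)) * h4
  · rw [Complex.sin_add, Complex.sin_sub]
    change (T * k - C * s) * (T' * k' + C' * s') * (k * k') = -(s * s' * (k ^ 2 + k' ^ 2))
    have e1 : (T * k - C * s) * k = -(s * (C * k + Complex.I * (k * k'))) := by
      rw [s1]; ring
    have e2 : (T' * k' + C' * s') * k' = s' * (C * k - Complex.I * (k * k')) := by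
      rw [s2, hS]; ring
    have e3 : (T * k - C * s) * (T' * k' + C' * s') * (k * k') =
        ((T * k - C * s) * k) * ((T' * k' + C' * s') * k') := by ring
    rw [e3, e1, e2]
    linear_combination (-(s * s')) * a1 + (s * s' * (k * k') ^ 2) * hI +
      (s * s' * s' ^ 2) * h3 + (s * s' * (1 - k ^ 2)) * h4

end Pool.Agent.W612.HT
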